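import Pool.Agent.Helper42.RZ2.Basic
import Pool.Agent.Helper32.RZ.S10a

/-! # RZ2-R11b: cutting the unit square into `N` strips -/

set_option autoImplicit false

open MeasureTheory Set Metric Filter Topology
open scoped ENNReal

namespace Pool.Agent.Helper8.RZ2

open Pool.Agent.Helper42.RZ Pool.Agent.Helper42.RZ2

/-- the affine map of the plane -/
noncomputable def affC (a α : ℝ) (z : ℂ) : ℂ :=
  Complex.measurableEquivRealProd.symm
    (Pool.Agent.Helper32.RZ.T a 0 α 1 (Complex.measurableEquivRealProd z))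

theorem affC_re (a α : ℝ) (z : ℂ) : (affC a α z).re = a + α * z.re := rfl

theorem affC_im (a α : ℝ) (z : ℂ) : (affC a α z).im = z.im := by
  change 0 + 1 * z.im = z.im
  ring

theorem measurable_affC (a α : ℝ) : Measurable (affC a α) :=
  Complex.measurableEquivRealProd.symm.measurable.comp
    ((Pool.Agent.Helper32.RZ.measurable_T _ _ _ _).comp Complex.measurableEquivRealProd.measurable)

theorem volume_affC (a : ℝ) {α : ℝ} (hα : 0 < α) {S : Set ℂ} (hS : MeasurableSet S) :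
    (volume : Measure ℂ).real (affC a α ⁻¹' S) = α⁻¹ * (volume : Measure ℂ).real S := by
  have hS' : MeasurableSet (Complex.measurableEquivRealProd.symm ⁻¹' S) :=
    Complex.measurableEquivRealProd.symm.measurable hS
  have h1 : affC a α ⁻¹' S = Complex.measurableEquivRealProd ⁻¹'
      (Pool.Agent.Helper32.RZ.T a 0 α 1 ⁻¹' (Complex.measurableEquivRealProd.symm ⁻¹' S)) := rfl
  have h2 : (volume : Measure ℂ).real S =
      (volume : Measure (ℝ × ℝ)).real (Complex.measurableEquivRealProd.symm ⁻¹' S) := by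
    rw [Measure.real, Measure.real,
      (Complex.volume_preserving_equiv_real_prod.symm).measure_preimage_equiv]
  rw [h1, h2, Measure.real, Complex.volume_preserving_equiv_real_prod.measure_preimage_equiv,
    ← Measure.real, Pool.Agent.Helper32.RZ.volume_preimage_T a 0 hα one_pos hS', mul_one]

/-- left end of the `j`-th strip -/
noncomputable def lo (N : ℕ) (j : ℝ) : ℝ := -(1 / 2) + j / N

theorem lo_succ (N : ℕ) (j : ℝ) : lo N (j + 1) = lo N j + (N : ℝ)⁻¹ := by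
  unfold lo
  ring

theorem tau_real {S : Set ℂ} (hS : MeasurableSet S) : tau.real S = volume.real (S ∩ Fd) := by
  rw [tau, Measure.real, Measure.restrict_apply hS, Measure.real]

theorem exists_torus_sectors (N : ℕ) (hN : 1 ≤ N) : ∃ (Q : Fin N → Set ℂ) (u : Fin N → ℂ → ℂ),
    (∀ j, MeasurableSet (Q j)) ∧ (∀ j, Measurable (u j)) ∧
    (∀ j j', j ≠ j' → Disjoint (Q j) (Q j')) ∧
    ∀ j (B : Set ℂ), MeasurableSet B → tau.real (u j ⁻¹' B) = N * tau.real (B ∩ Q j) := by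
  have hN0 : (0 : ℝ) < N := by exact_mod_cast hN
  have hNi : (0 : ℝ) < (N : ℝ)⁻¹ := inv_pos.2 hN0
  refine ⟨fun j => {x | x.re ∈ Ico (lo N (j : ℕ)) (lo N ((j : ℕ) + 1))},
    fun j => affC (lo N (j : ℕ) + (N : ℝ)⁻¹ * (1 / 2)) (N : ℝ)⁻¹, ?_, ?_, ?_, ?_⟩
  · intro j
    exact Complex.measurable_re measurableSet_Ico
  · intro j
    exact measurable_affC _ _
  · intro j j' hne
    have key : ∀ a b : Fin N, a < b → ∀ x : ℝ, x < lo N ((a : ℕ) + 1) → lo N (b : ℕ) ≤ x →
        False := by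
      intro a b hab x h1 h2
      have h3 : ((a : ℕ) : ℝ) + 1 ≤ ((b : ℕ) : ℝ) := by exact_mod_cast hab
      have h4 : lo N ((a : ℕ) + 1) ≤ lo N (b : ℕ) := by
        unfold lo
        have : (((a : ℕ) : ℝ) + 1) / N ≤ ((b : ℕ) : ℝ) / N := by gcongr
        linarith
      linarith
    rw [Set.disjoint_left]
    rintro x ⟨h1, h2⟩ ⟨h3, h4⟩
    rcases lt_or_gt_of_ne hne with h | h
    · exact key j j' h _ h2 h3
    · exact key j' j h _ h4 h1
  · intro j B hB
    have hQ : MeasurableSet {x : ℂ | x.re ∈ Ico (lo N (j : ℕ)) (lo N ((j : ℕ) + 1))} :=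
      Complex.measurable_re measurableSet_Ico
    have hj0 : (0 : ℝ) ≤ ((j : ℕ) : ℝ) := Nat.cast_nonneg _
    have hj1 : ((j : ℕ) : ℝ) + 1 ≤ N := by exact_mod_cast j.isLt
    rw [tau_real (measurable_affC _ _ hB), tau_real (hB.inter hQ)]
    have e1 : affC (lo N (j : ℕ) + (N : ℝ)⁻¹ * (1 / 2)) (N : ℝ)⁻¹ ⁻¹' B ∩ Fd =
        affC (lo N (j : ℕ) + (N : ℝ)⁻¹ * (1 / 2)) (N : ℝ)⁻¹ ⁻¹'
          (B ∩ {x : ℂ | x.re ∈ Ico (lo N (j : ℕ)) (lo N ((j : ℕ) + 1))} ∩ Fd) := by
      ext z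
      simp only [mem_inter_iff, mem_preimage, mem_setOf_eq, Fd]
      rw [affC_re, affC_im, lo_succ]
      have hlo0 : -(1 / 2 : ℝ) ≤ lo N (j : ℕ) := by
        unfold lo
        have : 0 ≤ ((j : ℕ) : ℝ) / N := by positivity
        linarith
      have hlo1 : lo N (j : ℕ) + (N : ℝ)⁻¹ ≤ 1 / 2 := by
        rw [← lo_succ]
        unfold lo
        have : (((j : ℕ) : ℝ) + 1) / N ≤ 1 := (div_le_one hN0).2 hj1
        linarith
      have hz : lo N (j : ℕ) + (N : ℝ)⁻¹ * (1 / 2) + (N : ℝ)⁻¹ * z.re =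
          lo N (j : ℕ) + (N : ℝ)⁻¹ * (z.re + 1 / 2) := by ring
      rw [hz]
      constructor
      · rintro ⟨h1, ⟨h2, h3⟩, h4⟩
        have h5 : 0 ≤ (N : ℝ)⁻¹ * (z.re + 1 / 2) := mul_nonneg hNi.le (by linarith)
        have h6 : (N : ℝ)⁻¹ * (z.re + 1 / 2) < (N : ℝ)⁻¹ * 1 :=
          mul_lt_mul_of_pos_left (by linarith) hNi
        rw [mul_one] at h6
        exact ⟨⟨h1, by linarith, by linarith⟩, ⟨by linarith, by linarith⟩, h4⟩
      · rintro ⟨⟨h1, h2, h3⟩, -, h4⟩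
        have h5 : 0 ≤ (N : ℝ)⁻¹ * (z.re + 1 / 2) := by linarith
        have h6 : (N : ℝ)⁻¹ * (z.re + 1 / 2) < (N : ℝ)⁻¹ * 1 := by linarith
        have h7 := (mul_nonneg_iff_of_pos_left hNi).1 h5
        have h8 := (mul_lt_mul_iff_of_pos_left hNi).1 h6
        exact ⟨h1, ⟨by linarith, by linarith⟩, h4⟩
    rw [e1, volume_affC _ hNi ((hB.inter hQ).inter measurableSet_Fd), inv_inv]

end Pool.Agent.Helper8.RZ2
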