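import Pool.Agent.Helper42.RZ2.Basic

/-! # RZ2-R2: radial functions on the plane -/

set_option autoImplicit false

open MeasureTheory Set Metric Filter Topology
open scoped ENNReal

namespace Pool.Agent.Helper8.RZ2

open Pool.Agent.Helper42.RZ Pool.Agent.Helper42.RZ2

theorem radial {f : ℝ → ℝ≥0∞} (hf : Measurable f) :
    ∫⁻ z : ℂ, f ‖z‖ = ENNReal.ofReal (2 * Real.pi) * ∫⁻ r in Ioi (0 : ℝ), ENNReal.ofReal r * f r := by
  rw [← Complex.lintegral_comp_polarCoord_symm]
  have h1 : ∫⁻ p in polarCoord.target, ENNReal.ofReal p.1 • f ‖Complex.polarCoord.symm p‖ =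
      ∫⁻ p in Ioi (0 : ℝ) ×ˢ Ioo (-Real.pi) Real.pi, ENNReal.ofReal p.1 * f p.1 := by
    rw [polarCoord_target]
    refine setLIntegral_congr_fun (measurableSet_Ioi.prod measurableSet_Ioo) ?_
    intro p hp
    have hp1 : (0 : ℝ) < p.1 := hp.1
    simp only [smul_eq_mul]
    rw [Complex.norm_polarCoord_symm, abs_of_pos hp1]
  rw [h1, Measure.volume_eq_prod, ← Measure.prod_restrict]
  have hm : Measurable fun r : ℝ => ENNReal.ofReal r * f r :=
    ENNReal.measurable_ofReal.mul hf
  have hm2 : Measurable fun p : ℝ × ℝ => ENNReal.ofReal p.1 * f p.1 := hm.comp measurable_fst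
  rw [lintegral_prod _ hm2.aemeasurable]
  simp only [lintegral_const, Measure.restrict_apply_univ, Real.volume_Ioo]
  rw [lintegral_mul_const _ hm, mul_comm]
  congr 2
  ring

theorem smul_ph {s w y : ℝ} (hy : 0 < y) :
    y ^ (Module.finrank ℝ ℂ - 1) • ph s w y = y ^ ((2 - s) - 1) * Real.exp (-(w * y)) := by
  rw [Complex.finrank_real_complex, ph, K]
  have h : y ^ ((2 - s) - 1) = y * y ^ (-s) := by
    rw [show (2 - s) - 1 = 1 + -s by ring, Real.rpow_add hy, Real.rpow_one]
  rw [h]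
  simp
  ring

theorem integrable_ph {s w : ℝ} (h2 : s < 2) (hw : 0 < w) :
    Integrable (fun z : ℂ => ph s w ‖z‖) := by
  rw [integrable_fun_norm_addHaar (E := ℂ) (volume : Measure ℂ) (f := ph s w)]
  have h1 : IntegrableOn (fun u : ℝ => u ^ (1 - s) * Real.exp (-w * u ^ (1 : ℝ))) (Ioi 0) :=
    integrableOn_rpow_mul_exp_neg_mul_rpow (by linarith) one_pos hw
  refine h1.congr_fun ?_ measurableSet_Ioi
  intro y hy
  simp only
  rw [smul_ph hy, Real.rpow_one, show 2 - s - 1 = 1 - s by ring, neg_mul]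

theorem vol_ball : (volume : Measure ℂ).real (ball 0 1) = Real.pi := by
  rw [Measure.real, Complex.volume_ball]
  simp

theorem integral_ph {s w : ℝ} (h2 : s < 2) (hw : 0 < w) :
    ∫ z : ℂ, ph s w ‖z‖ = bk s w := by
  rw [integral_fun_norm_addHaar (E := ℂ) (volume : Measure ℂ) (ph s w), vol_ball]
  have h1 : ∫ y in Ioi (0 : ℝ), y ^ (Module.finrank ℝ ℂ - 1) • ph s w y =
      (1 / w) ^ (2 - s) * Real.Gamma (2 - s) := by
    rw [← Real.integral_rpow_mul_exp_neg_mul_Ioi (by linarith) hw]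
    exact setIntegral_congr_fun measurableSet_Ioi fun y hy => smul_ph hy
  rw [h1, Complex.finrank_real_complex, bk, one_div, Real.inv_rpow hw.le, ← Real.rpow_neg hw.le,
    neg_sub]
  simp
  ring

/-- the mass of a ball of the unit torus -/
theorem integral_ball {s ρ : ℝ} (h0 : 0 < s) (h2 : s < 2) (hρ : 0 < ρ) (M : ℕ) (x : ℂ) :
    IntegrableOn (fun z : ℂ => K s ‖x - z‖ * (1 - ‖x - z‖ / 4) ^ M) {z | ‖x - z‖ < ρ} ∧
    ∫ z in {z : ℂ | ‖x - z‖ < ρ}, K s ‖x - z‖ * (1 - ‖x - z‖ / 4) ^ M =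
      4 * Real.pi * ∫ r in (0 : ℝ)..ρ, K s r * (1 - r / 4) ^ M * (r / 2) := by
  set g : ℝ → ℝ := (Iio ρ).indicator fun r => K s r * (1 - r / 4) ^ M with hg
  have hS : MeasurableSet {z : ℂ | ‖x - z‖ < ρ} :=
    measurableSet_lt (by fun_prop) measurable_const
  have hind : {z : ℂ | ‖x - z‖ < ρ}.indicator
      (fun z : ℂ => K s ‖x - z‖ * (1 - ‖x - z‖ / 4) ^ M) = fun z => g ‖x - z‖ := by
    funext z
    rw [hg]
    by_cases hz : ‖x - z‖ < ρ
    · rw [indicator_of_mem (by exact hz), indicator_of_mem (by exact hz)]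
    · rw [indicator_of_notMem (by exact hz), indicator_of_notMem (by exact hz)]
  have hI : IntervalIntegrable (fun r : ℝ => r ^ (1 - s) * (1 - r / 4) ^ M) volume 0 ρ :=
    (intervalIntegral.intervalIntegrable_rpow' (by linarith)).mul_continuousOn
      (by fun_prop)
  have hI1 : IntegrableOn (fun r : ℝ => r ^ (1 - s) * (1 - r / 4) ^ M) (Ioc 0 ρ) :=
    (intervalIntegrable_iff_integrableOn_Ioc_of_le hρ.le).1 hI
  have hgy : ∀ y : ℝ, 0 < y → y ^ (Module.finrank ℝ ℂ - 1) • g y =
      (Iio ρ).indicator (fun r : ℝ => r ^ (1 - s) * (1 - r / 4) ^ M) y := by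
    intro y hy
    rw [Complex.finrank_real_complex, hg]
    by_cases hyr : y < ρ
    · rw [indicator_of_mem (by exact hyr), indicator_of_mem (by exact hyr), K,
        show 1 - s = 1 + -s by ring, Real.rpow_add hy, Real.rpow_one]
      simp
      ring
    · rw [indicator_of_notMem (by exact hyr), indicator_of_notMem (by exact hyr)]
      simp
  have hset : Ioi (0 : ℝ) ∩ Iio ρ = Ioo 0 ρ := Ioi_inter_Iio
  have hInt : Integrable (fun z : ℂ => g ‖z‖) := by
    rw [integrable_fun_norm_addHaar (E := ℂ) (volume : Measure ℂ) (f := g)]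
    have h3 : IntegrableOn ((Iio ρ).indicator fun r : ℝ => r ^ (1 - s) * (1 - r / 4) ^ M)
        (Ioi 0) := by
      rw [IntegrableOn, integrable_indicator_iff measurableSet_Iio, IntegrableOn,
        Measure.restrict_restrict measurableSet_Iio, inter_comm, hset]
      exact hI1.mono_set Ioo_subset_Ioc_self
    exact h3.congr_fun (fun y hy => (hgy y hy).symm) measurableSet_Ioi
  constructor
  · rw [← integrable_indicator_iff hS, hind]
    exact hInt.comp_sub_left x
  · rw [← integral_indicator hS, hind, integral_sub_left_eq_self (fun z : ℂ => g ‖z‖),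
      integral_fun_norm_addHaar (E := ℂ) (volume : Measure ℂ) g, vol_ball]
    have h4 : ∫ y in Ioi (0 : ℝ), y ^ (Module.finrank ℝ ℂ - 1) • g y =
        ∫ r in (0 : ℝ)..ρ, r ^ (1 - s) * (1 - r / 4) ^ M := by
      rw [setIntegral_congr_fun measurableSet_Ioi fun y hy => hgy y hy,
        integral_indicator measurableSet_Iio, Measure.restrict_restrict measurableSet_Iio,
        inter_comm, hset, intervalIntegral.integral_of_le hρ.le, integral_Ioc_eq_integral_Ioo]
    rw [h4, Complex.finrank_real_complex]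
    have h5 : ∫ r in (0 : ℝ)..ρ, K s r * (1 - r / 4) ^ M * (r / 2) =
        (1 / 2) * ∫ r in (0 : ℝ)..ρ, r ^ (1 - s) * (1 - r / 4) ^ M := by
      rw [← intervalIntegral.integral_const_mul, intervalIntegral.integral_of_le hρ.le,
        intervalIntegral.integral_of_le hρ.le]
      refine setIntegral_congr_fun measurableSet_Ioc fun r hr => ?_
      rw [K, show 1 - s = 1 + -s by ring, Real.rpow_add hr.1, Real.rpow_one]
      ring
    rw [h5]
    simp
    ring

end Pool.Agent.Helper8.RZ2
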